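import Pool.Agent.X39.Near.MasterZ
import Pool.Agent.X255.RH.Fx

/-!
# Exponentials versus logarithms and elliptic integrals at ALL algebraic numbers close to any number outside a set of dimension zero

The problem asks whether `e` is a period. We study the exponentials `e ^ z` of algebraic numbers `z`, or more generally
`exp (p_j (z))` with algebraic functions `p_1, …, p_m`, and compare them with periods of dimension one: logarithms
`l_k (z)` of algebraic functions and elliptic integrals of the first and second kind `u_i (z)`, `ζ (u_i (z))`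
(`℘ (u_i)` is an algebraic function) for any pairwise non-isogenous elliptic curves. If these data are defined over the
algebraic numbers, then the `l_k (z)`, `u_i (z)`, `ζ (u_i (z))` are periods for algebraic `z`. Outside ONE set of complex
numbers `x` of Hausdorff dimension `0`, for all number fields `F ⊂ ℂ`, all `k ≥ 1` and `ω > 0` there are `C` and `T₁` such
that for all `T ≥ T₁` and ALL `z ∈ F` of height at most `T` with `|z - x| ≤ T ^ (-ω)` (for instance all rational numbers) all
these numbers at `z` satisfy `|P| ≥ H ^ (-C)` for all nonzero integral polynomials `P` of degree at most `k` and of height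
at most `H`, `T ^ (1 / k) ≤ H ≤ T ^ k`; so `e ^ z` is not a rational function of bounded complexity of these periods. More
generally there is no relation with coefficients which are polynomials of bounded degree in the `a_i(z) / w(z)` and in given
complex numbers `ξ_i` (for instance `π` or any fixed periods), with coefficients in `F` of height at most `T ^ A`. This
holds at the convergents of all irrational real numbers in `V` outside this set, from some point on.
-/

set_option autoImplicit false

open Polynomial MeasureTheory NumberField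

namespace Pool.Agent.Results.MP_725b61_nt.ApproximationsOfAllNumbers

open Pool.Agent.X39.Near (Size Dependent Inequality)

/-- The Weierstrass zeta function `ζ(z) = ∑ (1/(z-l) + 1/l + z/l²)`, the sum over the lattice (the summand of `l = 0` is
`1/z`, since `1/0 = 0` in Lean). -/
noncomputable def ζ (L : PeriodPair) (z : ℂ) : ℂ :=
  ∑' l : L.lattice, (1 / (z - l) + 1 / l + z / l ^ 2)

/-- an algebraic function on `V` -/
def Algebraic (V : Set ℂ) (f : ℂ → ℂ) : Prop := ∃ Q : ℂ[X][X], Q ≠ 0 ∧ ∀ z ∈ V, Q.evalEval z (f z) = 0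

/-- Algebraic functions `p_j`, logarithms `l_k` of algebraic functions, elliptic integrals `u_i` of the first kind. -/
structure Data (V : Set ℂ) {m s n q : ℕ} (p : Fin m → ℂ → ℂ) (l : Fin s → ℂ → ℂ) (Λ : Fin q → PeriodPair)
    (ty : Fin n → Fin q) (u : Fin n → ℂ → ℂ) : Prop where
  isOpen : IsOpen V
  isPreconnected : IsPreconnected V
  nonempty : V.Nonempty
  analytic_p : ∀ j, AnalyticOnNhd ℂ (p j) V
  algebraic_p : ∀ j, Algebraic V (p j)
  analytic_l : ∀ k, AnalyticOnNhd ℂ (l k) V
  algebraic_l : ∀ k, Algebraic V fun z => Complex.exp (l k z)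
  /-- no nontrivial combination with integral coefficients of the `p_j` and `l_k` is constant -/
  independent_l : ∀ (a : Fin m → ℤ) (b : Fin s → ℤ) (c : ℂ),
    (∀ z ∈ V, ∑ j, (a j : ℂ) * p j z + ∑ k, (b k : ℂ) * l k z = c) → a = 0 ∧ b = 0
  /-- the elliptic curves are pairwise not isogenous -/
  nonisogenous : ∀ c c', c ≠ c' → ∀ α : ℂ, (∀ w ∈ (Λ c).lattice, α * w ∈ (Λ c').lattice) → α = 0
  analytic_u : ∀ i, AnalyticOnNhd ℂ (u i) V
  u_notMem : ∀ i, ∀ z ∈ V, u i z ∉ (Λ (ty i)).lattice
  algebraic_u : ∀ i, Algebraic V fun z => (Λ (ty i)).weierstrassP (u i z)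
  /-- the `u_i` of type `c` are independent over the complex multiplications of `Λ_c` modulo constants -/
  independent_u : ∀ (c : Fin q) (a : Fin n → ℂ) (b : ℂ), (∀ i, ∀ w ∈ (Λ c).lattice, a i * w ∈ (Λ c).lattice) →
    (∀ i, ty i ≠ c → a i = 0) → (∀ z ∈ V, ∑ i, a i * u i z = b) → a = 0

/-- the functions `exp (p_j (z))`, `l_k (z)`, `u_i (z)`, `ζ (u_i (z))` -/
noncomputable def value {m s n q : ℕ} (p : Fin m → ℂ → ℂ) (l : Fin s → ℂ → ℂ) (Λ : Fin q → PeriodPair)
    (ty : Fin n → Fin q) (u : Fin n → ℂ → ℂ) : Fin m ⊕ (Fin s ⊕ (Fin n ⊕ Fin n)) → ℂ → ℂ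
  | Sum.inl j, z => Complex.exp (p j z)
  | Sum.inr (Sum.inl k), z => l k z
  | Sum.inr (Sum.inr (Sum.inl i)), z => u i z
  | Sum.inr (Sum.inr (Sum.inr i)), z => ζ (Λ (ty i)) (u i z)

theorem indep {m s n q : ℕ} (hpos : 0 < m + s + n) {V : Set ℂ} {p : Fin m → ℂ → ℂ} {l : Fin s → ℂ → ℂ}
    {Λ : Fin q → PeriodPair} {ty : Fin n → Fin q} {u : Fin n → ℂ → ℂ} (hd : Data V p l Λ ty u) :
    (∀ w, AnalyticOnNhd ℂ (value p l Λ ty u w) V) ∧
      Pool.Agent.X255.RH.Indep V (value p l Λ ty u) := by
  have hF : Pool.Agent.Y776.Cv.FxM V Λ ty u (Fin.append p l) :=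
    { isOpen := hd.isOpen
      conn := hd.isPreconnected
      ni := hd.nonisogenous
      ua := hd.analytic_u
      un := hd.u_notMem
      ui := fun c a b h1 h2 h3 => hd.independent_u c a b h1 h2 h3
      la := by
        intro k
        refine Fin.addCases (fun j => ?_) (fun j => ?_) k
        · rw [Fin.append_left]
          exact hd.analytic_p j
        · rw [Fin.append_right]
          exact hd.analytic_l j
      li := by
        intro a c hc
        have h1 := hd.independent_l (fun j => a (Fin.castAdd s j)) (fun k => a (Fin.natAdd m k)) c (by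
          intro z hz
          rw [← hc z hz, Fin.sum_univ_add]
          simp only [Fin.append_left, Fin.append_right])
        funext k
        refine Fin.addCases (fun j => ?_) (fun j => ?_) k
        · exact congrFun h1.1 j
        · exact congrFun h1.2 j }
  have hval : value p l Λ ty u =
      fun i => Pool.Agent.Y776.Cv.yf Λ ty u (Fin.append p l) (Pool.Agent.X255.RH.gB n m s i) := by
    funext i z
    rcases i with j | k | i | i
    · simp [value, Pool.Agent.Y776.Cv.yf, Pool.Agent.X255.RH.gB]
    · simp [value, Pool.Agent.Y776.Cv.yf, Pool.Agent.X255.RH.gB]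
    · rfl
    · rfl
  refine ⟨fun w => ?_, ?_⟩
  · have h1 := Pool.Agent.Y776.Cv.yf_an hF (Pool.Agent.X255.RH.gB n m s w)
    rw [← congrFun hval w] at h1
    exact h1
  · rw [hval]
    exact Pool.Agent.X255.RH.fx_mix hF hpos hd.nonempty hd.algebraic_p hd.algebraic_l hd.algebraic_u

/-- **Theorem.** Let `p_j`, `l_k`, `u_i` be as in `Data`, at least one function in all; let `a_k`, `w` be complex
polynomials, `w` without zeros on `V`, and `ξ_1, …, ξ_g` complex numbers.
There is a set `E` of complex numbers of Hausdorff dimension `0` such that for all `x ∈ V` outside `E`: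
(1) for all number fields `F` with an embedding `ι` in `ℂ`, all `k ≥ 1` and `ω > 0` there are `C`, `T₁` such that for all
`T ≥ T₁` and all `z ∈ F`, quotients of integers with conjugates at most `T`, with `|ι z - x| ≤ T ^ (-ω)`, every nonzero
integral polynomial of total degree at most `k` and height at most `H`, where `T ^ (1 / k) ≤ H ≤ T ^ k`, has at
`exp (p_j (z))`, `l_k (z)`, `u_i (z)`, `ζ (u_i (z))` a value of absolute value at least `H ^ (-C)`;
(2) for all such `F`, `ι`, all `d`, `A` and `ω > 0` there are `B`, `T₁` such that for all `T ≥ T₁` and all such `z` the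
numbers are not dependent (coefficients of degree at most `d` in the `a_k(z) / w(z)` and `ξ_i`);
(3) if `x` is real and irrational, for all `d`, `A` there is `B` such that the numbers at the convergents of `x` are not
dependent over `ℚ`, at the level of the denominator, from some point on. -/
theorem result {m s n q r g : ℕ} (hpos : 0 < m + s + n) (V : Set ℂ)
    (p : Fin m → ℂ → ℂ) (l : Fin s → ℂ → ℂ) (Λ : Fin q → PeriodPair) (ty : Fin n → Fin q) (u : Fin n → ℂ → ℂ)
    (hd : Data V p l Λ ty u)
    (a : Fin r → Polynomial ℂ) (w : Polynomial ℂ) (hw : ∀ t ∈ V, w.eval t ≠ 0) (ξ : Fin g → ℂ) :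
    ∃ E : Set ℂ, dimH E = 0 ∧
      (∀ x ∈ V, x ∉ E → ∀ (F : Type) [Field F] [NumberField F] (ι : F →+* ℂ)
        (k : ℕ) (ω : ℝ), 1 ≤ k → 0 < ω → ∃ C T₁ : ℝ, ∀ T : ℝ, T₁ ≤ T → ∀ t : F, Size F T t →
          ‖ι t - x‖ ≤ T ^ (-ω) → Inequality k C T (fun j => value p l Λ ty u j (ι t))) ∧
      (∀ x ∈ V, x ∉ E → ∀ (F : Type) [Field F] [NumberField F] (ι : F →+* ℂ)
        (d A : ℕ) (ω : ℝ), 0 < ω → ∃ B T₁ : ℝ, ∀ T : ℝ, T₁ ≤ T → ∀ t : F, Size F T t →
          ‖ι t - x‖ ≤ T ^ (-ω) → ¬ Dependent (value p l Λ ty u) a w ξ F ι d A B T t) ∧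
      ∀ x : ℝ, Irrational x → (x : ℂ) ∈ V → (x : ℂ) ∉ E → ∀ d A : ℕ, ∃ (B : ℝ) (n₀ : ℕ),
        ∀ k : ℕ, n₀ ≤ k → ¬ Dependent (value p l Λ ty u) a w ξ ℚ (algebraMap ℚ ℂ) d A B (x.convergent k).den
          (x.convergent k) := by
  obtain ⟨han, hind⟩ := indep hpos hd
  obtain ⟨E, h1, h2, h3⟩ := Pool.Agent.X39.Near.master_indep V hd.isOpen hd.isPreconnected
    (value p l Λ ty u) han hind a w hw ξ
  exact ⟨E, h1, Pool.Agent.X39.Near.ineq_of h2, h2, h3⟩

end Pool.Agent.Results.MP_725b61_nt.ApproximationsOfAllNumbers
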