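import Pool.Agent.X148.TR.InvPi

set_option autoImplicit false

/-!
# `e`, `1/π`, Euler's constant as multipliers of periods of one variable

`Forms γ` is the space of all linear combinations, with algebraic coefficients, of the integrals
of rational functions of one variable with algebraic coefficients over compact intervals with
algebraic end points, of all logarithms of algebraic numbers, and of finitely many arbitrary
complex numbers `γ 0, ..., γ (g - 1)`; `L` is the case `g = 0`.  `Mult x F` is the space of all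
`v` with `x i * v ∈ F` for all `i`.
-/

namespace Pool.Agent.Results.MP_725b61_nt.MultiplierSpaces

open Pool.Agent.TH379.PER
open Pool.Agent.X148.TR

/-- multiplier spaces in general; the numbers `1/π`, `e` and Euler's constant -/
theorem result :
    (∀ (g : ℕ) (γ : Fin g → ℂ) (u : ℂ), Transcendental ℚ u →
      FiniteDimensional (algebraicClosure ℚ ℂ) (Mult ![1, u] (Forms γ)) ∧
      Module.finrank (algebraicClosure ℚ ℂ) (Mult ![1, u] (Forms γ)) ≤ 2 * g + 2) ∧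
    (∀ (g : ℕ) (γ : Fin g → ℂ) (d : ℕ) (x : Fin d → ℂ), 3 ≤ d →
      LinearIndependent (algebraicClosure ℚ ℂ) x →
      FiniteDimensional (algebraicClosure ℚ ℂ) (Mult x (Forms γ)) ∧
      Module.finrank (algebraicClosure ℚ ℂ) (Mult x (Forms γ)) ≤ d * g + 1) ∧
    (∀ v ∈ L, (∀ a b : ℂ, IsAlgebraic ℚ a → IsAlgebraic ℚ b → v ≠ a + b * Real.pi) →
      ¬ (1 / (Real.pi : ℂ) ∈ L ∧ v / (Real.pi : ℂ) ∈ L)) ∧
    (∀ l : ℂ, IsAlgebraic ℚ (Complex.exp l) → (∀ q : ℚ, l ≠ q * (Real.pi * Complex.I)) →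
      ¬ (1 / (Real.pi : ℂ) ∈ L ∧ l / (Real.pi : ℂ) ∈ L)) ∧
    ¬ (1 / (Real.pi : ℂ) ∈ L ∧ (Real.pi : ℂ) ^ 2 ∈ L) ∧
    ¬ (1 / (Real.pi : ℂ) ∈ L ∧ 1 / (Real.pi : ℂ) ^ 2 ∈ L) ∧
    ¬ ((Complex.exp 1)⁻¹ ∈ L ∧ Complex.exp 1 ∈ L ∧ Complex.exp 1 ^ 2 ∈ L) ∧
    ¬ (1 / (Real.pi : ℂ) ∈ L ∧ Complex.exp 1 ∈ L ∧ Complex.exp 1 * Real.pi ∈ L ∧
      Complex.exp 1 / Real.pi ∈ L) ∧
    (IsAlgebraic ℚ (Real.eulerMascheroniConstant : ℂ) ∨
      (Module.finrank (algebraicClosure ℚ ℂ)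
          (Mult ![1, (Real.eulerMascheroniConstant : ℂ)] L) ≤ 2 ∧
        ¬ ((Real.eulerMascheroniConstant : ℂ)⁻¹ ∈ L ∧ (Real.eulerMascheroniConstant : ℂ) ∈ L ∧
          (Real.eulerMascheroniConstant : ℂ) ^ 2 ∈ L) ∧
        ¬ (1 / (Real.pi : ℂ) ∈ L ∧ (Real.eulerMascheroniConstant : ℂ) ∈ L ∧
          (Real.eulerMascheroniConstant : ℂ) * Real.pi ∈ L ∧
          (Real.eulerMascheroniConstant : ℂ) / Real.pi ∈ L))) := by
  have hLM : ∀ {z : ℂ}, z ∈ L → z ∈ Pool.Agent.H301R2.SSE.Lt := fun h => L_le h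
  have hA : ∀ (g : ℕ) (γ : Fin g → ℂ) (u : ℂ), Transcendental ℚ u →
      FiniteDimensional (algebraicClosure ℚ ℂ) (Mult ![1, u] (Forms γ)) ∧
      Module.finrank (algebraicClosure ℚ ℂ) (Mult ![1, u] (Forms γ)) ≤ 2 * g + 2 :=
    fun g γ u hu => ⟨finite_Mult γ le_rfl (pair_indep hu), finrank_Mult γ le_rfl (pair_indep hu)⟩
  have he : Transcendental ℚ (Complex.exp 1) :=
    Pool.Agent.H340R2.LW.transcendental_exp_one_complex
  refine ⟨hA, fun g γ d x hd hx => ⟨finite_Mult γ (by omega) hx, ?_⟩,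
    fun v hv hv2 h => inv_pi (hLM hv) hv2 (hLM h.1) (hLM h.2),
    fun l hl hl2 h => inv_pi (Pool.Agent.H301R2.SSE.Lt_log hl) (log_not_pi hl hl2) (hLM h.1)
      (hLM h.2),
    fun h => inv_pi_sq ⟨hLM h.1, hLM h.2⟩, fun h => inv_pi_inv_sq ⟨hLM h.1, hLM h.2⟩,
    fun h => inv_self_sq he ⟨hLM h.1, hLM h.2.1, hLM h.2.2⟩,
    fun h => with_pi he ⟨hLM h.1, hLM h.2.1, hLM h.2.2.1, hLM h.2.2.2⟩, ?_⟩
  · have h1 := finrank_Mult γ (by omega) hx
    have h2 : kk d = 1 := by unfold kk; rw [if_neg (by omega)]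
    rwa [h2] at h1
  · by_cases hg : IsAlgebraic ℚ (Real.eulerMascheroniConstant : ℂ)
    · exact Or.inl hg
    · refine Or.inr ⟨?_, fun h => inv_self_sq hg ⟨hLM h.1, hLM h.2.1, hLM h.2.2⟩,
        fun h => with_pi hg ⟨hLM h.1, hLM h.2.1, hLM h.2.2.1, hLM h.2.2.2⟩⟩
      have h1 := (hA 0 (fun i => i.elim0) _ hg).2
      rwa [Nat.mul_zero, Nat.zero_add] at h1

end Pool.Agent.Results.MP_725b61_nt.MultiplierSpaces
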