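import Pool.Agent.Results.MP_725b61_nt.ApproximationsOfAllNumbers
import Pool.Agent.X174.TupIneq

/-!
# Exponentials versus logarithms and elliptic integrals at ALL simultaneous approximations of `N` numbers

The problem asks whether `e` is a period. We study the exponentials `e ^ z`, more generally `exp (p_j (z))` with algebraic
functions `p_j`, at `N` algebraic numbers `z_1, …, z_N` at a time, together with periods of dimension one: logarithms `l_k (z)`
of algebraic functions and elliptic integrals of the first and second kind `u_i (z)`, `ζ (u_i (z))` for any pairwise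
non-isogenous elliptic curves; the functions may be different for the `N` points. For every `ω > 0` and `e` there is ONE set
`E ⊂ ℂ^N` of Hausdorff dimension at most `2 e (N - 1) / ω` such that for all `x` outside `E`, all number fields `F ⊂ ℂ` of
degree at most `e` and all `k ≥ 1` there are `C` and `T₁` such that for all `T ≥ T₁` and ALL simultaneous approximations
`z ∈ F^N` of `x`, of height at most `T`, with `|z_j - x_j| ≤ T ^ (-ω)` for all `j`, all these numbers at the `N` points
together satisfy `|P| ≥ H ^ (-C)` for all nonzero integral polynomials `P` of degree at most `k` in each variable and height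
at most `H`, `T ^ (1 / k) ≤ H ≤ T ^ k`: no rational function of bounded complexity of the `e ^ (z_j)` is one of these periods.
More generally there is no relation with coefficients which are polynomials of bounded degree in the `a_ji(z_j) / w_j(z_j)`
and in given complex numbers `ξ_i` (for instance `π` or any fixed periods), with coefficients in `F` of height at most
`T ^ A`. For `ω > 2 e (N - 1) / N` almost all real `x` are outside `E`. Some exceptions are unavoidable for `N ≥ 2`:
`exp (z_1)`, `exp (z_2)`, `exp (z_1 + z_2)` are related at all points with `x_3 = x_1 + x_2`, `z_3 = z_1 + z_2`.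

The case `N = 1` is the result `ApproximationsOfAllNumbers`, from which the functions are taken.
-/

set_option autoImplicit false

open MeasureTheory NumberField

namespace Pool.Agent.Results.MP_725b61_nt.SimultaneousApproximations

open Pool.Agent.X39.Near (Size)
open Pool.Agent.X174.NearTup (DependentT coefAtT InequalityT)
open ApproximationsOfAllNumbers (Data value indep)

/-- **Theorem.** Let `N ≥ 1`, `e` be natural numbers; for each `j < N` let `p_j1, …`, `l_j1, …`, `u_j1, …` be as in `Data` on
`V_j`, at least one function in all, `a_jk`, `w_j` complex polynomials, `w_j` without zeros on `V_j`; let `ξ_1, …, ξ_g` be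
complex numbers and `ω > 0`. There is a set `E ⊂ ℂ^N` of Hausdorff dimension at most `2 e (N - 1) / ω`, which contains almost
no real point if `2 e (N - 1) < N ω`, such that for all `x` outside `E` with `x_j ∈ V_j` and all number fields `F` of degree at
most `e` with an embedding `ι` in `ℂ`:
(1) for all `k ≥ 1` there are `C`, `T₁` such that for all `T ≥ T₁` and all `z ∈ F^N`, quotients of integers with conjugates at
most `T`, with `|ι z_j - x_j| ≤ T ^ (-ω)` for all `j`, the inequality `InequalityT` holds for the values of all these functions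
(`exp (p_ji)`, `l_ji`, `u_ji`, `ζ (u_ji)`) at `z_j`, `j < N`;
(2) for all `d`, `A` there are `B`, `T₁` such that for all `T ≥ T₁` and all such `z` these numbers are not dependent. -/
theorem result {N m s n q r g : ℕ} (hN : 1 ≤ N) (hpos : 0 < m + s + n) (e : ℕ) (V : Fin N → Set ℂ)
    (p : Fin N → Fin m → ℂ → ℂ) (l : Fin N → Fin s → ℂ → ℂ) (Λ : Fin N → Fin q → PeriodPair)
    (ty : Fin N → Fin n → Fin q) (u : Fin N → Fin n → ℂ → ℂ)
    (hd : ∀ j, Data (V j) (p j) (l j) (Λ j) (ty j) (u j))
    (a : Fin N → Fin r → Polynomial ℂ) (w : Fin N → Polynomial ℂ) (hw : ∀ j, ∀ t ∈ V j, (w j).eval t ≠ 0)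
    (ξ : Fin g → ℂ) (ω : ℝ) (hω : 0 < ω) :
    ∃ E : Set (Fin N → ℂ), dimH E ≤ ENNReal.ofReal (2 * e * ((N : ℝ) - 1) / ω) ∧
      (2 * e * ((N : ℝ) - 1) < N * ω → ∀ᵐ x : Fin N → ℝ, (fun j => (x j : ℂ)) ∉ E) ∧
      ∀ x : Fin N → ℂ, (∀ j, x j ∈ V j) → x ∉ E → ∀ (F : Type) [Field F] [NumberField F],
        Module.finrank ℚ F ≤ e → ∀ (ι : F →+* ℂ),
        (∀ k : ℕ, 1 ≤ k → ∃ C T₁ : ℝ, ∀ T : ℝ, T₁ ≤ T → ∀ z : Fin N → F, (∀ j, Size F T (z j)) →
          (∀ j, ‖ι (z j) - x j‖ ≤ T ^ (-ω)) →
          InequalityT k C T (fun y : Fin N × (Fin m ⊕ (Fin s ⊕ (Fin n ⊕ Fin n))) =>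
            value (p y.1) (l y.1) (Λ y.1) (ty y.1) (u y.1) y.2 (ι (z y.1)))) ∧
        ∀ d A : ℕ, ∃ B T₁ : ℝ, ∀ T : ℝ, T₁ ≤ T → ∀ z : Fin N → F, (∀ j, Size F T (z j)) →
          (∀ j, ‖ι (z j) - x j‖ ≤ T ^ (-ω)) →
          ¬ DependentT (fun j => value (p j) (l j) (Λ j) (ty j) (u j)) a w ξ F ι d A B T z := by
  obtain ⟨E, h1, h2, h3⟩ := Pool.Agent.X174.NearTup.masterTup hN e V (fun j => (hd j).isOpen)
    (fun j => value (p j) (l j) (Λ j) (ty j) (u j)) (fun j i t ht => (indep hpos (hd j)).1 i t ht)
    (fun j => Pool.Agent.X39.Near.locInd_of (hd j).isPreconnected _ (fun i t ht => (indep hpos (hd j)).1 i t ht)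
      (Pool.Agent.X39.Near.aindep_of_indep (indep hpos (hd j)).2))
    a w hw ξ hω
  exact ⟨E, h1, h2, fun x hx hxE F _ _ hF ι => ⟨fun k hk =>
    Pool.Agent.X174.NearTup.ineq_of (h3 x hx hxE F hF ι) k hk, h3 x hx hxE F hF ι⟩⟩

end Pool.Agent.Results.MP_725b61_nt.SimultaneousApproximations
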